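import Pool.Agent.R280.LipSD2P

/-!
# MP_6460d9_an, Q1

The strong diameter two property of spaces of vector-valued Lipschitz maps.
-/

set_option autoImplicit false

universe u v

namespace Pool.Agent.Results.MP_6460d9_an.LipSD2P

open Pool.Agent.R280.Lip

/-- If the pointed metric space `(M, o)` is unbounded or not uniformly discrete, then
`Lip_0(M, Y)` has the strong diameter two property for every normed space `Y`; in particular
`Lip_0(M, X*)` has the strong diameter two property for every Banach space `X`. No extension
property is needed. -/
theorem result (M : Type u) [MetricSpace M] (o : M)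
    (hM : ¬ Bornology.IsBounded (Set.univ : Set M) ∨
      ∀ ε : ℝ, 0 < ε → ∃ x y : M, x ≠ y ∧ dist x y < ε) :
    (∀ (X : Type v) [NormedAddCommGroup X] [NormedSpace ℝ X] [CompleteSpace X],
      SD2P (LipZ M o (StrongDual ℝ X))) ∧
    ∀ (Y : Type v) [NormedAddCommGroup Y] [NormedSpace ℝ Y], SD2P (LipZ M o Y) := by
  have h : Good M := by
    rcases hM with h | h
    · exact good_of_unbounded o h
    · exact good_of_not_discrete h
  exact ⟨fun X _ _ _ => sd2p_of_good h, fun Y _ _ => sd2p_of_good h⟩

end Pool.Agent.Results.MP_6460d9_an.LipSD2P
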